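import Pool.Agent.H78.OSDefs
import Pool.Agent.H78.OSMain

/-!
# Cyclic orderings of bipartite graphs without alternating edges: NP-completeness
-/

namespace Pool.Agent.Results.MP_7399ce_lc.NPComplete

/-- **Answer to Q1.**  Deciding whether a finite bipartite graph (given by its adjacency lists) has a
cyclic ordering with no alternating-edge obstruction is NP-complete under polynomial time many-one
reductions. -/
theorem result : N793a5b8e.IsCompleteFor N68a2faeb.NP Pool.Agent.H78.OS.problem :=
  Pool.Agent.H78.OS.isCompleteFor_problem

end Pool.Agent.Results.MP_7399ce_lc.NPComplete
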